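import Pool.Agent.H25.RG.Four
import Pool.Agent.H25.RG.Ext
import Pool.Agent.H44.RG5.Upper
import Pool.Agent.H44.RG5.Lower

set_option autoImplicit false

/-! # The maximal rainbow girth `f(n,t)` in the dense range `2 t ≥ (2 - √2 + o(1)) n ^ (3/2)` -/

namespace Pool.Agent.Results.MP_df8ddc_co.DenseRange

open Pool.Agent.H25.RG

/-- `G` has `2 t` edges and every colour class of `c` on the edges of `G` has exactly two edges -/
def IsPairColouring {n : ℕ} (t : ℕ) (G : SimpleGraph (Fin n)) (c : Sym2 (Fin n) → ℕ) : Prop :=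
  G.edgeSet.ncard = 2 * t ∧ ∀ e ∈ G.edgeSet, {e' | e' ∈ G.edgeSet ∧ c e' = c e}.ncard = 2

/-- the length of a shortest rainbow cycle, `⊤` if there is none -/
noncomputable def rainbowGirth {n : ℕ} (G : SimpleGraph (Fin n)) (c : Sym2 (Fin n) → ℕ) : ℕ∞ :=
  ⨅ (v : Fin n) (p : G.Walk v v) (_ : p.IsCycle ∧ (p.edges.map c).Nodup), (p.length : ℕ∞)

/-- the rainbow girths of the graphs with `n` vertices and `2 t` edges whose colour classes all have
two edges; `f(n,t)` is the greatest element of this set -/
def rainbowGirths (n t : ℕ) : Set ℕ∞ :=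
  {r | ∃ (G : SimpleGraph (Fin n)) (c : Sym2 (Fin n) → ℕ),
    IsPairColouring t G c ∧ rainbowGirth G c = r}

open scoped Classical in
lemma pair_iff {n t : ℕ} {G : SimpleGraph (Fin n)} {c : Sym2 (Fin n) → ℕ} :
    IsPairColouring t G c ↔ G.edgeFinset.card = 2 * t ∧
      ∀ e ∈ G.edgeFinset, (G.edgeFinset.filter (fun e' => c e' = c e)).card = 2 := by
  unfold IsPairColouring
  have h1 : G.edgeSet.ncard = G.edgeFinset.card := by
    rw [← SimpleGraph.coe_edgeFinset, Set.ncard_coe_finset]
  have h2 : ∀ e, {e' | e' ∈ G.edgeSet ∧ c e' = c e}.ncard =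
      (G.edgeFinset.filter (fun e' => c e' = c e)).card := by
    intro e
    rw [← Set.ncard_coe_finset]
    congr 1
    ext e'
    simp
  rw [h1]
  simp only [h2, SimpleGraph.mem_edgeFinset]

variable {n : ℕ} {G : SimpleGraph (Fin n)} {c : Sym2 (Fin n) → ℕ}

lemma three_le : 3 ≤ rainbowGirth G c := by
  refine le_iInf fun v => le_iInf fun p => le_iInf fun hp => ?_
  exact_mod_cast hp.1.three_le_length

lemma four_le (h : ∀ x y z, G.Adj x y → G.Adj y z → G.Adj z x →
    c s(x, y) = c s(y, z) ∨ c s(y, z) = c s(z, x) ∨ c s(z, x) = c s(x, y)) :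
    4 ≤ rainbowGirth G c := by
  refine le_iInf fun v => le_iInf fun p => le_iInf fun hp => ?_
  have h3 := hp.1.three_le_length
  have h4 : p.length ≠ 3 := by
    intro h5
    match p, h5, hp with
    | .cons (v := y) h1 (.cons (v := z) h2 (.cons (v := w) h3 q)), h5, hp =>
      have hq : q.length = 0 := by
        simp only [SimpleGraph.Walk.length_cons] at h5
        omega
      have hw := SimpleGraph.Walk.eq_of_length_eq_zero hq
      subst hw
      have hq2 := SimpleGraph.Walk.eq_nil_iff_nil.2 (SimpleGraph.Walk.length_eq_zero_iff.1 hq)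
      subst hq2
      have h6 := hp.2
      simp only [SimpleGraph.Walk.edges_cons, SimpleGraph.Walk.edges_nil, List.map_cons,
        List.map_nil, List.nodup_cons, List.mem_cons, List.not_mem_nil, or_false,
        not_false_eq_true, List.nodup_nil, and_true] at h6
      rcases h _ y z h1 h2 h3 with h7 | h7 | h7
      · exact h6.1 (Or.inl h7)
      · exact h6.2 h7
      · exact h6.1 (Or.inr h7.symm)
  have h5 : 4 ≤ p.length := by omega
  exact_mod_cast h5

lemma le_three {x y z : Fin n} (hxy : G.Adj x y) (hyz : G.Adj y z) (hzx : G.Adj z x)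
    (h1 : c s(x, y) ≠ c s(y, z)) (h2 : c s(y, z) ≠ c s(z, x)) (h3 : c s(z, x) ≠ c s(x, y)) :
    rainbowGirth G c ≤ 3 := by
  have n1 := hxy.ne
  have n2 := hyz.ne
  have n3 := hzx.ne
  let p : G.Walk x x := .cons hxy (.cons hyz (.cons hzx .nil))
  have hp : p.IsCycle ∧ (p.edges.map c).Nodup := by
    constructor
    · rw [SimpleGraph.Walk.cons_isCycle_iff]
      simp
      grind
    · simp [p]
      grind
  exact iInf_le_of_le x (iInf_le_of_le p (iInf_le_of_le hp le_rfl))

lemma le_four {x y z w : Fin n} (hxy : G.Adj x y) (hyz : G.Adj y z) (hzw : G.Adj z w)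
    (hwx : G.Adj w x) (hxz : x ≠ z) (hyw : y ≠ w)
    (h : ([c s(x, y), c s(y, z), c s(z, w), c s(w, x)] : List ℕ).Nodup) :
    rainbowGirth G c ≤ 4 := by
  have n1 := hxy.ne
  have n2 := hyz.ne
  have n3 := hzw.ne
  have n4 := hwx.ne
  let p : G.Walk x x := .cons hxy (.cons hyz (.cons hzw (.cons hwx .nil)))
  have hp : p.IsCycle ∧ (p.edges.map c).Nodup := by
    constructor
    · rw [SimpleGraph.Walk.cons_isCycle_iff]
      simp
      grind
    · simpa [p] using h
  exact iInf_le_of_le x (iInf_le_of_le p (iInf_le_of_le hp le_rfl))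

lemma five_le (h3 : ∀ x y z, G.Adj x y → G.Adj y z → G.Adj z x →
    c s(x, y) = c s(y, z) ∨ c s(y, z) = c s(z, x) ∨ c s(z, x) = c s(x, y))
    (h4 : ∀ x y z w, G.Adj x y → G.Adj y z → G.Adj z w → G.Adj w x → x ≠ z → y ≠ w → False) :
    5 ≤ rainbowGirth G c := by
  refine le_iInf fun v => le_iInf fun p => le_iInf fun hp => ?_
  have h5 : 4 ≤ p.length := by
    have h6 := (four_le h3).trans (iInf_le_of_le v (iInf_le_of_le p (iInf_le_of_le hp le_rfl)))
    exact_mod_cast h6
  have h7 : p.length ≠ 4 := by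
    intro h8
    match p, h8, hp with
    | .cons (v := y) h1 (.cons (v := z) h2 (.cons (v := w) h3 (.cons (v := u) h9 q))), h8, hp =>
      have hq : q.length = 0 := by
        simp only [SimpleGraph.Walk.length_cons] at h8
        omega
      have hw := SimpleGraph.Walk.eq_of_length_eq_zero hq
      subst hw
      have hq2 := SimpleGraph.Walk.eq_nil_iff_nil.2 (SimpleGraph.Walk.length_eq_zero_iff.1 hq)
      subst hq2
      have h6 := hp.1.support_nodup
      simp only [SimpleGraph.Walk.support_cons, SimpleGraph.Walk.support_nil, List.tail_cons,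
        List.nodup_cons, List.mem_cons, List.not_mem_nil, or_false, not_false_eq_true,
        List.nodup_nil, and_true] at h6
      refine h4 _ y z w h1 h2 h3 h9 ?_ ?_
      · rintro rfl
        exact h6.2.1 (Or.inr rfl)
      · rintro rfl
        exact h6.1 (Or.inr (Or.inl rfl))
  have h8 : 5 ≤ p.length := by omega
  exact_mod_cast h8

/-- **`f(n,t) = 3` if `2 t > ⌊n²/4⌋ + ⌊(n+1)/4⌋`; `f(n,t) = 4` if
`(2 - √2) n √n + 5 n ≤ 2 t ≤ ⌊n²/4⌋ + ⌊(n+1)/4⌋` or `n √(n-1) < 2 t ≤ ⌊n²/4⌋ + ⌊(n+1)/4⌋`;
`f(n,t) ≥ 5` if `2 t ≤ ex(n; C₄)`** (`t > n`). -/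
theorem result (n t : ℕ) (hnt : n < t) (ht : 2 * t ≤ n.choose 2) :
    (n ^ 2 / 4 + (n + 1) / 4 < 2 * t → IsGreatest (rainbowGirths n t) 3) ∧
    (2 * t ≤ n ^ 2 / 4 + (n + 1) / 4 →
      (n ^ 2 * (n - 1) < (2 * t) ^ 2 ∨ (2 - √2) * (n * √n) + 5 * n ≤ 2 * (t : ℝ)) →
      IsGreatest (rainbowGirths n t) 4) ∧
    (2 * t ≤ SimpleGraph.extremalNumber n (SimpleGraph.cycleGraph 4) →
      ∃ r ∈ rainbowGirths n t, 5 ≤ r) := by
  classical
  have hn : 6 ≤ n := by
    rw [Nat.choose_two_right] at ht
    by_contra hcon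
    have : n ≤ 5 := by omega
    interval_cases n <;> omega
  refine ⟨?_, ?_, ?_⟩
  · intro h1
    have key : ∀ (G : SimpleGraph (Fin n)) (c : Sym2 (Fin n) → ℕ), IsPairColouring t G c →
        rainbowGirth G c ≤ 3 := by
      intro G c hc
      rw [pair_iff] at hc
      by_contra hcon
      have hG : Good G c := by
        refine ⟨?_, ?_⟩
        · intro e₁ h₁ e₂ h₂ e₃ h₃ h12 h13
          by_contra hne
          push Not at hne
          have h4 := hc.2 e₁ (by simpa using h₁)
          have h5 : ({e₁, e₂, e₃} : Finset (Sym2 (Fin n))) ⊆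
              G.edgeFinset.filter (fun e' => c e' = c e₁) := by
            intro e he
            simp only [Finset.mem_insert, Finset.mem_singleton] at he
            rw [Finset.mem_filter, SimpleGraph.mem_edgeFinset]
            rcases he with rfl | rfl | rfl
            · exact ⟨h₁, rfl⟩
            · exact ⟨h₂, h12.symm⟩
            · exact ⟨h₃, h13.symm⟩
          have h6 := Finset.card_le_card h5
          rw [h4, Finset.card_eq_three.2 ⟨e₁, e₂, e₃, hne.1, hne.2.1, hne.2.2, rfl⟩] at h6
          omega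
        · intro x y z hxy hyz hzx
          by_contra hne
          push Not at hne
          exact hcon (le_three hxy hyz hzx hne.1 hne.2.1 hne.2.2)
      have h7 := edges_le hn Finset.univ (by rw [Finset.card_univ, Fintype.card_fin]) G hG
        (fun x _ _ => Finset.mem_univ x)
      rw [F] at h7
      have h8 := hc.1
      omega
    obtain ⟨H, c, hE, h2⟩ := exists_pair ht
    have hHc : IsPairColouring t H c := pair_iff.2 ⟨by convert hE, by
      intro e he
      convert h2 e (by convert he)⟩
    refine ⟨⟨H, c, hHc, le_antisymm (key H c hHc) three_le⟩, ?_⟩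
    rintro r ⟨G, c', hG, rfl⟩
    exact key G c' hG
  · intro h1 h1'
    have key : ∀ (G : SimpleGraph (Fin n)) (c : Sym2 (Fin n) → ℕ), IsPairColouring t G c →
        rainbowGirth G c ≤ 4 := by
      intro G c hc
      rw [pair_iff] at hc
      by_contra hcon
      have g4 : ∀ x y z w, G.Adj x y → G.Adj y z → G.Adj z w → G.Adj w x → x ≠ z → y ≠ w →
          ¬ ([c s(x, y), c s(y, z), c s(z, w), c s(w, x)] : List ℕ).Nodup := by
        intro x y z w hxy hyz hzw hwx hxz hyw hnd
        exact hcon (le_four hxy hyz hzw hwx hxz hyw hnd)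
      rcases h1' with h1' | h1'
      · have h2 := four hc.1 hc.2 (by
          intro x y z hxy hyz hzx
          by_contra hne
          push Not at hne
          exact hcon ((le_three hxy hyz hzx hne.1 hne.2.1 hne.2.2).trans (by norm_num))) g4
        rw [Fintype.card_fin] at h2
        omega
      · have h2 := Pool.Agent.H44.RG5.upper' (Pool.Agent.H44.RG5.uniq_of_pair hc.2) g4
          (by rw [Fintype.card_fin]; omega)
        rw [Fintype.card_fin, hc.1] at h2
        push_cast at h2
        exact absurd h2 (not_lt.2 h1')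
    obtain ⟨H, c, hE, h2, h3⟩ := exists_good (n := n) (t := t) h1
    have hHc : IsPairColouring t H c := pair_iff.2 ⟨by convert hE, by
      intro e he
      convert h2 e (by convert he)⟩
    refine ⟨⟨H, c, hHc, le_antisymm (key H c hHc) (four_le h3)⟩, ?_⟩
    rintro r ⟨G, c', hG, rfl⟩
    exact key G c' hG
  · intro h1
    obtain ⟨G, hdec, hG⟩ := SimpleGraph.exists_isExtremal_free (V := Fin n)
      (H := SimpleGraph.cycleGraph 4) (by
        intro h
        have h2 : (SimpleGraph.cycleGraph 4).Adj 0 1 := by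
          rw [SimpleGraph.cycleGraph_adj]
          decide
        rw [h] at h2
        exact h2)
    have h2 := SimpleGraph.card_edgeFinset_of_isExtremal_free hG
    rw [Fintype.card_fin] at h2
    obtain ⟨H, c, hE, h3, h4, h5⟩ := Pool.Agent.H44.RG5.exists_five (t := t) (G := G)
      (Pool.Agent.H44.RG5.c4Free_of_free hG.prop) (by
        refine h1.trans (le_of_eq ?_)
        rw [← h2]
        refine congrArg Finset.card ?_
        ext e
        simp)
    have hHc : IsPairColouring t H c := pair_iff.2 ⟨by convert hE, by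
      intro e he
      convert h3 e (by convert he)⟩
    exact ⟨_, ⟨H, c, hHc, rfl⟩, five_le h4 h5⟩

end Pool.Agent.Results.MP_df8ddc_co.DenseRange
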