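import Pool.Agent.H25.RG.Four
import Pool.Agent.H25.RG.Ext
import Pool.Agent.H25.RG.Half2
import Pool.Agent.H25.RG3.Pairs
import Pool.Agent.H25.RG3.Bridge
import Pool.Agent.H25.RG3.Transfer

set_option autoImplicit false

/-! # `f(n,n+k) = (1/2 + O(k/n)) g(n,k)` -/

namespace Pool.Agent.Results.MP_df8ddc_co.GirthFormula

open Pool.Agent.H25.RG Pool.Agent.H25.RG3

/-- `G` has `2 t` edges and every colour class of `c` on the edges of `G` has exactly two edges -/
def IsPairColouring {n : ℕ} (t : ℕ) (G : SimpleGraph (Fin n)) (c : Sym2 (Fin n) → ℕ) : Prop :=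
  G.edgeSet.ncard = 2 * t ∧ ∀ e ∈ G.edgeSet, {e' | e' ∈ G.edgeSet ∧ c e' = c e}.ncard = 2

/-- the length of a shortest rainbow cycle, `⊤` if there is none -/
noncomputable def rainbowGirth {n : ℕ} (G : SimpleGraph (Fin n)) (c : Sym2 (Fin n) → ℕ) : ℕ∞ :=
  ⨅ (v : Fin n) (p : G.Walk v v) (_ : p.IsCycle ∧ (p.edges.map c).Nodup), (p.length : ℕ∞)

/-- `f(n,t)`: the largest rainbow girth of a graph with `n` vertices and `2 t` edges all of whose
colour classes have two edges -/
noncomputable def f (n t : ℕ) : ℕ∞ :=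
  sSup {r | ∃ (G : SimpleGraph (Fin n)) (c : Sym2 (Fin n) → ℕ),
    IsPairColouring t G c ∧ rainbowGirth G c = r}

/-- `g(n,k)`: the largest girth of a graph with `n` vertices and `n + k` edges -/
noncomputable def g (n k : ℕ) : ℕ∞ :=
  sSup {r | ∃ H : SimpleGraph (Fin n), H.edgeSet.ncard = n + k ∧ H.egirth = r}

open scoped Classical in
lemma ncard_eq {n : ℕ} (G : SimpleGraph (Fin n)) : G.edgeSet.ncard = G.edgeFinset.card := by
  rw [← SimpleGraph.coe_edgeFinset, Set.ncard_coe_finset]

open scoped Classical in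
lemma pair_iff {n t : ℕ} {G : SimpleGraph (Fin n)} {c : Sym2 (Fin n) → ℕ} :
    IsPairColouring t G c ↔ G.edgeFinset.card = 2 * t ∧
      ∀ e ∈ G.edgeFinset, (G.edgeFinset.filter (fun e' => c e' = c e)).card = 2 := by
  unfold IsPairColouring
  have h2 : ∀ e, {e' | e' ∈ G.edgeSet ∧ c e' = c e}.ncard =
      (G.edgeFinset.filter (fun e' => c e' = c e)).card := by
    intro e
    rw [← Set.ncard_coe_finset]
    congr 1
    ext e'
    simp
  rw [ncard_eq]
  simp only [h2, SimpleGraph.mem_edgeFinset]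

/-- the lower bound -/
theorem lower (n t : ℕ) (hnt : n ≤ t) (ht : 2 * t ≤ n.choose 2) (H : SimpleGraph (Fin n))
    (hH : H.edgeSet.ncard = t) : H.egirth ≤ 2 * f n t := by
  classical
  rw [ncard_eq] at hH
  by_cases hg : 5 ≤ H.egirth
  · obtain ⟨G, c, h1, h2, h3⟩ := exists_half H hH (by rw [Fintype.card_fin]; exact hnt) hg
    have hG : IsPairColouring t G c := pair_iff.2 ⟨by convert h1, by
      intro e he
      convert h2 e (by convert he)⟩
    have h4 : rainbowGirth G c ≤ f n t := le_sSup ⟨G, c, hG, rfl⟩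
    refine le_trans ?_ (mul_le_mul_right h4 2)
    by_cases htop : rainbowGirth G c = ⊤
    · rw [htop]
      simp
    · -- the infimum is attained
      by_contra hcon
      rw [not_le] at hcon
      have h5 : ∃ (v : Fin n) (p : G.Walk v v), (p.IsCycle ∧ (p.edges.map c).Nodup) ∧
          2 * (p.length : ℕ∞) < H.egirth := by
        by_contra hno
        push Not at hno
        obtain ⟨m, hm⟩ := ENat.ne_top_iff_exists.1 htop
        have h6 : ((m + 1 : ℕ) : ℕ∞) ≤ rainbowGirth G c := by
          refine le_iInf fun v => le_iInf fun p => le_iInf fun hp => ?_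
          have h7 := hno v p hp
          have h8 := hcon.trans_le h7
          rw [← hm] at h8
          have h9 : 2 * m < 2 * p.length := by exact_mod_cast h8
          have h10 : m + 1 ≤ p.length := by omega
          exact_mod_cast h10
        rw [← hm] at h6
        have h7 : m + 1 ≤ m := by exact_mod_cast h6
        omega
      obtain ⟨v, p, hp, h6⟩ := h5
      exact absurd (h3 v p hp.1 hp.2) (not_le.2 h6)
  · rw [not_le] at hg
    obtain ⟨G, c, h1, h2⟩ := exists_pair ht
    have hG : IsPairColouring t G c := pair_iff.2 ⟨by convert h1, by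
      intro e he
      convert h2 e (by convert he)⟩
    have h4 : rainbowGirth G c ≤ f n t := le_sSup ⟨G, c, hG, rfl⟩
    have h5 : (3 : ℕ∞) ≤ rainbowGirth G c := by
      refine le_iInf fun v => le_iInf fun p => le_iInf fun hp => ?_
      exact_mod_cast hp.1.three_le_length
    calc H.egirth ≤ 5 := hg.le
      _ ≤ 2 * 3 := by norm_num
      _ ≤ 2 * f n t := mul_le_mul_right (h5.trans h4) 2

/-- `f(n,t) ≤ g(n,t)` -/
theorem select_bound (n t : ℕ) (G : SimpleGraph (Fin n)) (c : Sym2 (Fin n) → ℕ)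
    (hG : IsPairColouring t G c) :
    ∃ H : SimpleGraph (Fin n), H.edgeSet.ncard = t ∧ rainbowGirth G c ≤ H.egirth := by
  classical
  obtain ⟨h1, h2⟩ := pair_iff.1 hG
  obtain ⟨H, hHG, hHt, hinj⟩ := select h1 h2
  refine ⟨H, by rw [ncard_eq]; exact hHt, ?_⟩
  rw [SimpleGraph.le_egirth]
  intro a w hw
  have h4 : (w.mapLe hHG).IsCycle ∧ ((w.mapLe hHG).edges.map c).Nodup := by
    refine ⟨hw.mapLe hHG, ?_⟩
    rw [SimpleGraph.Walk.edges_mapLe_eq_edges]
    refine List.Nodup.map_on ?_ hw.isTrail.edges_nodup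
    intro e he e' he' hee
    exact hinj e (w.edges_subset_edgeSet he) e' (w.edges_subset_edgeSet he') hee
  refine (iInf_le_of_le a (iInf_le_of_le (w.mapLe hHG) (iInf_le_of_le h4 le_rfl))).trans ?_
  simp

open scoped Classical in
/-- every graph with `n` vertices and `n + k` edges has a cycle -/
lemma egirth_le {n k : ℕ} (hk : 1 ≤ k) (H : SimpleGraph (Fin n))
    (hH : H.edgeSet.ncard = n + k) : H.egirth ≤ (n + k : ℕ) := by
  rw [ncard_eq] at hH
  have hn : 0 < n := by
    rcases Nat.eq_zero_or_pos n with h0 | h0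
    · subst h0
      have h1 : H.edgeFinset.card ≤ (0 : ℕ).choose 2 := by
        have := H.card_edgeFinset_le_card_choose_two
        rwa [Fintype.card_fin] at this
      rw [hH] at h1
      simp at h1
      omega
    · exact h0
  rw [egirth_le_iff_core, ← hH]
  have : NeZero n := ⟨by omega⟩
  refine core_of_card_le (W := Finset.univ) ?_ Finset.univ_nonempty ?_
  · intro e he
    rw [SimpleGraph.mem_edgeFinset] at he
    exact ⟨SimpleGraph.not_isDiag_of_mem_edgeSet _ he, fun v _ => Finset.mem_univ v⟩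
  · rw [Finset.card_univ, Fintype.card_fin, hH]
    omega

open scoped Classical in
/-- the upper bound for one coloured graph -/
theorem upper {n k L : ℕ} (hk : 1 ≤ k) (hD : Dense (n / 2 + 1000000 * k) k L)
    (G : SimpleGraph (Fin n)) (c : Sym2 (Fin n) → ℕ) (hG : IsPairColouring (n + k) G c) :
    rainbowGirth G c ≤ L := by
  obtain ⟨h1, h2⟩ := pair_iff.1 hG
  -- the colour classes
  set K : Finset ℕ := G.edgeFinset.image c with hK
  have hcl : ∀ i : {x // x ∈ K}, ∃ x y : Sym2 (Fin n), x ≠ y ∧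
      G.edgeFinset.filter (fun e => c e = i.1) = {x, y} := by
    rintro ⟨i, hi⟩
    rw [hK, Finset.mem_image] at hi
    obtain ⟨e, he, rfl⟩ := hi
    have h3 := h2 e he
    rw [Finset.card_eq_two] at h3
    obtain ⟨x, y, hxy, h4⟩ := h3
    exact ⟨x, y, hxy, h4⟩
  choose x y hxy hcl using hcl
  have hx : ∀ i, x i ∈ G.edgeFinset ∧ c (x i) = i.1 := by
    intro i
    have : x i ∈ G.edgeFinset.filter (fun e => c e = i.1) := by
      rw [hcl i]
      exact Finset.mem_insert_self _ _
    exact Finset.mem_filter.1 this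
  have hy : ∀ i, y i ∈ G.edgeFinset ∧ c (y i) = i.1 := by
    intro i
    have : y i ∈ G.edgeFinset.filter (fun e => c e = i.1) := by
      rw [hcl i]
      exact Finset.mem_insert_of_mem (Finset.mem_singleton_self _)
    exact Finset.mem_filter.1 this
  have hnd : ∀ e ∈ G.edgeFinset, ¬ e.IsDiag := fun e he =>
    SimpleGraph.not_isDiag_of_mem_edgeSet _ (SimpleGraph.mem_edgeFinset.1 he)
  let Q : PairSys (Fin n) {x // x ∈ K} :=
    { e₁ := x
      e₂ := y
      nd₁ := fun i => hnd _ (hx i).1
      nd₂ := fun i => hnd _ (hy i).1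
      inj₁ := fun i j hij => Subtype.ext (by rw [← (hx i).2, ← (hx j).2, hij])
      inj₂ := fun i j hij => Subtype.ext (by rw [← (hy i).2, ← (hy j).2, hij])
      ne := by
        intro i j hij
        have : i = j := Subtype.ext (by rw [← (hx i).2, ← (hy j).2, hij])
        subst this
        exact hxy i hij }
  have hcard : Fintype.card {x // x ∈ K} = Fintype.card (Fin n) + k := by
    rw [Fintype.card_coe, Fintype.card_fin]
    have h3 : G.edgeFinset.card = K.card * 2 := by
      rw [Finset.card_eq_sum_card_fiberwise (f := c) (t := K)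
        (fun e he => Finset.mem_image_of_mem _ he)]
      rw [Finset.sum_const_nat (m := 2)]
      intro i hi
      rw [hK, Finset.mem_image] at hi
      obtain ⟨e, he, rfl⟩ := hi
      exact h2 e he
    rw [h1] at h3
    omega
  obtain ⟨J, σ, C, hC, hne, hCL, hdeg⟩ := rainbow_core Q hk hcard (by
    rw [Fintype.card_fin]
    exact hD)
  have hpick : ∀ i, Q.pick σ i ∈ G.edgeFinset ∧ c (Q.pick σ i) = i.1 := by
    intro i
    unfold PairSys.pick
    split_ifs
    · exact hy i
    · exact hx i
  have hCG : ∀ e ∈ C, ∃ i, Q.pick σ i = e := by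
    intro e he
    obtain ⟨i, _, hi⟩ := Finset.mem_image.1 (hC he)
    exact ⟨i, hi⟩
  obtain ⟨v, p, hp, hpC⟩ := cycle_of_core (G := G) (C := C) (by
    intro e he
    obtain ⟨i, rfl⟩ := hCG e he
    exact SimpleGraph.mem_edgeFinset.1 (hpick i).1) hne hdeg
  have hrb : p.IsCycle ∧ (p.edges.map c).Nodup := by
    refine ⟨hp, List.Nodup.map_on ?_ hp.isTrail.edges_nodup⟩
    intro e he e' he' hee
    obtain ⟨i, rfl⟩ := hCG e (hpC e he)
    obtain ⟨j, rfl⟩ := hCG e' (hpC e' he')
    have : i = j := Subtype.ext (by rw [← (hpick i).2, ← (hpick j).2, hee])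
    rw [this]
  refine (iInf_le_of_le v (iInf_le_of_le p (iInf_le_of_le hrb le_rfl))).trans ?_
  have h3 : p.length ≤ L := by
    rw [← SimpleGraph.Walk.length_edges, ← List.toFinset_card_of_nodup hp.isTrail.edges_nodup]
    refine (Finset.card_le_card ?_).trans hCL
    intro e he
    exact hpC e (List.mem_toFinset.1 he)
  exact_mod_cast h3

/-- **`f(n,n+k) = (1/2 + O(k/n)) g(n,k)`** for all `n` and all `k ≥ 1` -/
theorem result (n k : ℕ) (hk : 1 ≤ k) (h : 2 * (n + k) ≤ n.choose 2) :
    g n k ≤ 2 * f n (n + k) ∧ n * (2 * f n (n + k)) ≤ (n + 25000000 * k) * g n k := by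
  classical
  constructor
  · refine sSup_le ?_
    rintro r ⟨H, hH, rfl⟩
    exact lower n (n + k) (Nat.le_add_right _ _) h H hH
  -- `g` is finite
  have hgtop : g n k ≤ (n + k : ℕ) := by
    refine sSup_le ?_
    rintro r ⟨H, hH, rfl⟩
    exact egirth_le hk H hH
  obtain ⟨M, hM⟩ := ENat.ne_top_iff_exists.1
    (ne_top_of_le_ne_top (ENat.natCast_ne_top _) hgtop)
  have hfg : f n (n + k) ≤ g n k := by
    refine sSup_le ?_
    rintro r ⟨G, c, hG, rfl⟩
    obtain ⟨H, hH, h1⟩ := select_bound n (n + k) G c hG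
    exact h1.trans (le_sSup ⟨H, hH, rfl⟩)
  obtain ⟨F, hF⟩ := ENat.ne_top_iff_exists.1
    (ne_top_of_le_ne_top (ENat.natCast_ne_top _) (hfg.trans hgtop))
  have hFM : F ≤ M := by
    rw [← hM, ← hF] at hfg
    exact_mod_cast hfg
  rw [← hM, ← hF]
  suffices h1 : n * (2 * F) ≤ (n + 25000000 * k) * M by exact_mod_cast h1
  set d := (n + k) / (8000010 * k) with hd
  have hk8 : 0 < 8000010 * k := by omega
  have hd1 : d * (8000010 * k) ≤ n + k := Nat.div_mul_le_self _ _
  have hd2 : n + k < (d + 1) * (8000010 * k) := by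
    rw [add_mul, one_mul, hd]
    exact Nat.lt_div_mul_add hk8
  rcases Nat.lt_or_ge d 2 with hcase | hcase
  · have h3 : n ≤ 25000000 * k := by
      have h4 : (d + 1) * (8000010 * k) ≤ 2 * (8000010 * k) := Nat.mul_le_mul_right _ (by omega)
      omega
    calc n * (2 * F) ≤ n * (2 * M) := Nat.mul_le_mul_left _ (Nat.mul_le_mul_left _ hFM)
      _ = (n + n) * M := by ring
      _ ≤ (n + 25000000 * k) * M := Nat.mul_le_mul_right _ (by omega)
  · have hD : Dense n k M := by
      refine dense_of_egirth hk fun H hH => ?_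
      rw [hM]
      exact le_sSup ⟨H, hH, rfl⟩
    have hD2 : Dense (n / 2 + 1000000 * k) k (d * M / (2 * (d - 1))) := by
      refine transfer (s := 2000001 * k) hD (by omega) ?_ hcase
      calc 2 * (d * (2 * (2000001 * k) + 3 * k)) = d * (8000010 * k) := by ring
        _ ≤ n + k := hd1
    have h3 : f n (n + k) ≤ (d * M / (2 * (d - 1)) : ℕ) := by
      refine sSup_le ?_
      rintro r ⟨G, c, hG, rfl⟩
      exact upper hk hD2 G c hG
    rw [← hF] at h3
    have h4 : F ≤ d * M / (2 * (d - 1)) := by exact_mod_cast h3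
    rw [Nat.le_div_iff_mul_le (by omega)] at h4
    obtain ⟨e, he⟩ : ∃ e, d = e + 2 := ⟨d - 2, by omega⟩
    rw [he] at h4 hd2
    have h5 : e + 2 - 1 = e + 1 := by omega
    rw [h5] at h4
    -- `n ≤ 24000030 k (e + 1)`
    have h6 : n ≤ 24000030 * k * (e + 1) := by nlinarith
    -- `2 (e + 1) F ≤ (e + 2) M`
    have h7 : (e + 1) * (n * (2 * F)) ≤ (e + 1) * ((n + 25000000 * k) * M) := by
      calc (e + 1) * (n * (2 * F)) = n * (F * (2 * (e + 1))) := by ring
        _ ≤ n * ((e + 2) * M) := Nat.mul_le_mul_left _ h4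
        _ = (e + 1) * (n * M) + n * M := by ring
        _ ≤ (e + 1) * (n * M) + 24000030 * k * (e + 1) * M :=
            Nat.add_le_add_left (Nat.mul_le_mul_right _ h6) _
        _ = (e + 1) * ((n + 24000030 * k) * M) := by ring
        _ ≤ (e + 1) * ((n + 25000000 * k) * M) := by
            refine Nat.mul_le_mul_left _ (Nat.mul_le_mul_right _ ?_)
            omega
    exact Nat.le_of_mul_le_mul_left h7 (Nat.succ_pos e)

end Pool.Agent.Results.MP_df8ddc_co.GirthFormula
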